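import Pool.Agent.H84.Unc.Defs
import Pool.Agent.H84.KlsMachine

/-! N9 coin flips. -/

set_option autoImplicit false
set_option linter.unusedVariables false

open MeasureTheory Set
open scoped Pointwise

namespace Pool.Agent.H84.Unc

open Pool.Agent.H84

variable {n : ℕ}

/-- Reflection in the coordinates of `T`. -/
noncomputable def sgT (T : Finset (Fin n)) :
    EuclideanSpace ℝ (Fin n) ≃ₗᵢ[ℝ] EuclideanSpace ℝ (Fin n) :=
  LinearIsometryEquiv.piLpCongrRight 2
    (fun i => if i ∈ T then LinearIsometryEquiv.neg ℝ else LinearIsometryEquiv.refl ℝ ℝ)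

theorem sgT_apply (T : Finset (Fin n)) (x : EuclideanSpace ℝ (Fin n)) (i : Fin n) :
    sgT T x i = if i ∈ T then -(x i) else x i := by
  simp only [sgT, LinearIsometryEquiv.piLpCongrRight_apply]
  split_ifs with h <;> simp

theorem sgT_sgT (T : Finset (Fin n)) (x : EuclideanSpace ℝ (Fin n)) : sgT T (sgT T x) = x := by
  ext i
  simp only [sgT_apply]
  split_ifs <;> simp

theorem sgT_insert (T : Finset (Fin n)) {i : Fin n} (hi : i ∉ T) (x : EuclideanSpace ℝ (Fin n)) :
    sgT (insert i T) x = flip i (sgT T x) := by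
  ext j
  simp only [flip, sgT_apply, Finset.mem_insert]
  by_cases hj : j = i
  · subst hj
    simp [hi]
  · simp [hj]

theorem sgT_mem {K : Set (EuclideanSpace ℝ (Fin n))} (hinv : RInv K) (T : Finset (Fin n)) :
    ∀ x ∈ K, sgT T x ∈ K := by
  induction T using Finset.induction_on with
  | empty =>
    intro x hx
    have : sgT ∅ x = x := by
      ext i
      simp [sgT_apply]
    rwa [this]
  | insert i T hi ih =>
    intro x hx
    rw [sgT_insert T hi]
    exact hinv i _ (ih x hx)

theorem sgT_preimage {K : Set (EuclideanSpace ℝ (Fin n))} (hinv : RInv K) (T : Finset (Fin n)) :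
    sgT T ⁻¹' K = K := by
  ext x
  constructor
  · intro h
    have := sgT_mem hinv T _ h
    rwa [sgT_sgT] at this
  · intro h
    exact sgT_mem hinv T _ h

theorem integral_sgT {K : Set (EuclideanSpace ℝ (Fin n))} (hinv : RInv K) (T : Finset (Fin n))
    (F : EuclideanSpace ℝ (Fin n) → ℝ) :
    ∫ x in K, F (sgT T x) = ∫ x in K, F x := by
  have h := (sgT T).measurePreserving.setIntegral_preimage_emb
    (sgT T).toHomeomorph.measurableEmbedding F K
  rw [← h, sgT_preimage hinv T]

theorem sum_prod_ite (a b : Fin n → ℝ) :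
    ∑ T : Finset (Fin n), ∏ i, (if i ∈ T then a i else b i) = ∏ i, (a i + b i) := by
  rw [Finset.prod_add]
  rw [Finset.powerset_univ]
  refine Finset.sum_congr rfl fun T _ => ?_
  rw [Finset.prod_ite]
  congr 1
  · congr 1
    ext i; simp
  · congr 1
    ext i; simp

/-- Sign of the coordinate `i` after the reflection in `T`. -/
noncomputable def sT (T : Finset (Fin n)) (i : Fin n) : ℝ := if i ∈ T then -1 else 1

/-- Walsh monomials. -/
noncomputable def tw (φ : ℝ) (S : Finset (Fin n)) (x : EuclideanSpace ℝ (Fin n)) : ℝ :=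
  ∏ i ∈ S, Real.tanh (φ * x i)

theorem gt_sgT (φ : ℝ) (T : Finset (Fin n)) (x : EuclideanSpace ℝ (Fin n)) :
    gt φ (sgT T x) = ∏ i, (1 + sT T i * Real.tanh (φ * x i)) := by
  unfold gt
  refine Finset.prod_congr rfl fun i _ => ?_
  rw [sgT_apply, sT]
  split_ifs
  · rw [mul_neg, Real.tanh_neg]; ring
  · ring

theorem gt_sgT_sum (φ : ℝ) (T : Finset (Fin n)) (x : EuclideanSpace ℝ (Fin n)) :
    gt φ (sgT T x) = ∑ S : Finset (Fin n), (∏ i ∈ S, sT T i) * tw φ S x := by
  rw [gt_sgT, Finset.prod_one_add, Finset.powerset_univ]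
  refine Finset.sum_congr rfl fun S _ => ?_
  rw [tw, Finset.prod_mul_distrib]

theorem gt_sum (φ : ℝ) (x : EuclideanSpace ℝ (Fin n)) :
    gt φ x = ∑ S : Finset (Fin n), tw φ S x := by
  unfold gt tw
  rw [Finset.prod_one_add, Finset.powerset_univ]

theorem sum_gt_sgT (φ : ℝ) (x : EuclideanSpace ℝ (Fin n)) :
    ∑ T : Finset (Fin n), gt φ (sgT T x) = 2 ^ n := by
  have h : ∀ T : Finset (Fin n), gt φ (sgT T x) =
      ∏ i, (if i ∈ T then 1 - Real.tanh (φ * x i) else 1 + Real.tanh (φ * x i)) := by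
    intro T
    rw [gt_sgT]
    refine Finset.prod_congr rfl fun i _ => ?_
    rw [sT]
    split_ifs <;> ring
  simp only [h]
  rw [sum_prod_ite]
  have : ∀ i : Fin n, (1 - Real.tanh (φ * x i) + (1 + Real.tanh (φ * x i))) = 2 := by
    intro i; ring
  simp [this]

theorem char_orth (S S' : Finset (Fin n)) :
    ∑ T : Finset (Fin n), (∏ i ∈ S, sT T i) * (∏ i ∈ S', sT T i) =
      if S = S' then (2:ℝ) ^ n else 0 := by
  have h : ∀ T : Finset (Fin n), (∏ i ∈ S, sT T i) * (∏ i ∈ S', sT T i) =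
      ∏ i, (if i ∈ T then ((if i ∈ S then (-1:ℝ) else 1) * (if i ∈ S' then -1 else 1))
        else (1:ℝ)) := by
    intro T
    have e : ∀ Z : Finset (Fin n), ∏ i ∈ Z, sT T i = ∏ i, (if i ∈ Z then sT T i else 1) := by
      intro Z
      rw [Finset.prod_ite_mem, Finset.univ_inter]
    rw [e S, e S', ← Finset.prod_mul_distrib]
    refine Finset.prod_congr rfl fun i _ => ?_
    simp only [sT]
    split_ifs <;> simp
  simp only [h]
  rw [sum_prod_ite]
  split_ifs with hS
  · subst hS
    have : ∀ i : Fin n, ((if i ∈ S then (-1:ℝ) else 1) * (if i ∈ S then -1 else 1) + 1) = 2 := by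
      intro i
      split_ifs <;> norm_num
    rw [Finset.prod_congr rfl fun i _ => this i]
    simp
  · obtain ⟨i, hi⟩ : ∃ i, ¬ (i ∈ S ↔ i ∈ S') := by
      by_contra hcon
      push Not at hcon
      exact hS (Finset.ext hcon)
    apply Finset.prod_eq_zero (Finset.mem_univ i)
    by_cases h1 : i ∈ S <;> by_cases h2 : i ∈ S' <;> simp_all

theorem walsh_parseval (c : Finset (Fin n) → ℝ) :
    ∑ T : Finset (Fin n), (∑ S : Finset (Fin n), (∏ i ∈ S, sT T i) * c S) ^ 2 =
      2 ^ n * ∑ S : Finset (Fin n), c S ^ 2 := by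
  have e2 : ∀ T : Finset (Fin n), (∑ S : Finset (Fin n), (∏ i ∈ S, sT T i) * c S) ^ 2 =
      ∑ S : Finset (Fin n), ∑ S' : Finset (Fin n),
        (c S * c S') * ((∏ i ∈ S, sT T i) * (∏ i ∈ S', sT T i)) := by
    intro T
    rw [sq, Finset.sum_mul_sum]
    refine Finset.sum_congr rfl fun S _ => Finset.sum_congr rfl fun S' _ => by ring
  rw [Finset.sum_congr rfl fun T _ => e2 T]
  rw [Finset.sum_comm]
  rw [Finset.mul_sum]
  refine Finset.sum_congr rfl fun S _ => ?_
  rw [Finset.sum_comm]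
  have e3 : ∀ S' : Finset (Fin n), ∑ T : Finset (Fin n),
      (c S * c S') * ((∏ i ∈ S, sT T i) * (∏ i ∈ S', sT T i)) =
        (c S * c S') * (if S = S' then (2:ℝ) ^ n else 0) := by
    intro S'
    rw [← Finset.mul_sum, char_orth]
  rw [Finset.sum_congr rfl fun S' _ => e3 S']
  rw [Finset.sum_eq_single S]
  · simp; ring
  · intro S' _ hne
    rw [if_neg hne.symm, mul_zero]
  · intro h; exact absurd (Finset.mem_univ _) h

theorem tw_continuous (φ : ℝ) (S : Finset (Fin n)) : Continuous (tw φ S) := by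
  unfold tw
  refine continuous_finsetProd _ fun i _ => ?_
  have h1 : Continuous fun x : EuclideanSpace ℝ (Fin n) => φ * x i := by fun_prop
  have h2 : Continuous Real.tanh := by
    have : Real.tanh = fun x => Real.sinh x / Real.cosh x := by
      ext x; exact Real.tanh_eq_sinh_div_cosh x
    rw [this]
    exact Real.continuous_sinh.div Real.continuous_cosh fun x => (Real.cosh_pos x).ne'
  exact h2.comp h1

theorem tw_flip (φ : ℝ) (S : Finset (Fin n)) (i : Fin n) (x : EuclideanSpace ℝ (Fin n)) :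
    tw φ S (sgT {i} x) = (if i ∈ S then -1 else 1) * tw φ S x := by
  unfold tw
  by_cases hi : i ∈ S
  · rw [if_pos hi, ← Finset.mul_prod_erase S _ hi, ← Finset.mul_prod_erase S _ hi]
    have h1 : ∏ j ∈ S.erase i, Real.tanh (φ * (sgT {i} x) j) =
        ∏ j ∈ S.erase i, Real.tanh (φ * x j) := by
      refine Finset.prod_congr rfl fun j hj => ?_
      rw [sgT_apply, if_neg]
      simpa using (Finset.mem_erase.1 hj).1
    rw [h1, sgT_apply, if_pos (by simp), mul_neg, Real.tanh_neg]
    ring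
  · rw [if_neg hi, one_mul]
    refine Finset.prod_congr rfl fun j hj => ?_
    rw [sgT_apply, if_neg]
    intro h
    simp only [Finset.mem_singleton] at h
    exact hi (h ▸ hj)

theorem tw_orth {K : Set (EuclideanSpace ℝ (Fin n))} (hinv : RInv K) (φ : ℝ)
    {S S' : Finset (Fin n)} (hS : S ≠ S') : ∫ x in K, tw φ S x * tw φ S' x = 0 := by
  obtain ⟨i, hi⟩ : ∃ i, ¬ (i ∈ S ↔ i ∈ S') := by
    by_contra hcon
    push Not at hcon
    exact hS (Finset.ext hcon)
  have h := integral_sgT hinv {i} (fun x => tw φ S x * tw φ S' x)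
  have h2 : ∀ x, tw φ S (sgT {i} x) * tw φ S' (sgT {i} x) = - (tw φ S x * tw φ S' x) := by
    intro x
    rw [tw_flip, tw_flip]
    by_cases h1 : i ∈ S <;> by_cases h2 : i ∈ S' <;> simp_all
  simp only [h2, integral_neg] at h
  linarith

theorem tw_empty (φ : ℝ) (x : EuclideanSpace ℝ (Fin n)) : tw φ ∅ x = 1 := by
  simp [tw]

theorem tw_int {K : Set (EuclideanSpace ℝ (Fin n))} (hinv : RInv K) (φ : ℝ)
    {S : Finset (Fin n)} (hS : S ≠ ∅) : ∫ x in K, tw φ S x = 0 := by
  have := tw_orth hinv φ hS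
  simpa [tw_empty] using this

theorem sinh_le_mul_cosh {u : ℝ} (hu : 0 ≤ u) : Real.sinh u ≤ u * Real.cosh u := by
  have hmono : MonotoneOn (fun v : ℝ => v * Real.cosh v - Real.sinh v) (Set.Ici 0) := by
    apply monotoneOn_of_deriv_nonneg (convex_Ici 0)
    · fun_prop
    · fun_prop
    · intro v hv
      simp only [interior_Ici, Set.mem_Ioi] at hv
      have h1 : HasDerivAt (fun v : ℝ => v * Real.cosh v - Real.sinh v)
          (1 * Real.cosh v + v * Real.sinh v - Real.cosh v) v :=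
        ((hasDerivAt_id v).mul (Real.hasDerivAt_cosh v)).sub (Real.hasDerivAt_sinh v)
      rw [h1.deriv]
      have h2 : 0 ≤ Real.sinh v := Real.sinh_nonneg_iff.2 hv.le
      nlinarith
  have h := hmono (Set.mem_Ici.2 le_rfl) (Set.mem_Ici.2 hu) hu
  simp only [zero_mul, Real.sinh_zero, sub_zero] at h
  linarith

theorem tanh_sq_le (u : ℝ) : Real.tanh u ^ 2 ≤ u ^ 2 := by
  have key : ∀ v : ℝ, 0 ≤ v → Real.tanh v ^ 2 ≤ v ^ 2 := by
    intro v hv
    rw [Real.tanh_eq_sinh_div_cosh]
    have hc := Real.cosh_pos v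
    have h0 : 0 ≤ Real.sinh v := Real.sinh_nonneg_iff.2 hv
    have h1 : Real.sinh v / Real.cosh v ≤ v := by
      rw [div_le_iff₀ hc]
      exact sinh_le_mul_cosh hv
    exact pow_le_pow_left₀ (div_nonneg h0 hc.le) h1 2
  rcases le_total 0 u with h | h
  · exact key u h
  · have := key (-u) (by linarith)
    rw [Real.tanh_neg] at this
    nlinarith

theorem tanh_sq_le_one (u : ℝ) : Real.tanh u ^ 2 ≤ 1 := by
  rw [Real.tanh_eq_sinh_div_cosh, div_pow]
  have hc := Real.cosh_pos u
  rw [div_le_one (by positivity)]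
  have := Real.cosh_sq u
  linarith

theorem tw_sq_le (φ : ℝ) {S : Finset (Fin n)} {i : Fin n} (hi : i ∈ S)
    (x : EuclideanSpace ℝ (Fin n)) : tw φ S x * tw φ S x ≤ φ ^ 2 * x i ^ 2 := by
  unfold tw
  rw [← Finset.prod_mul_distrib, ← Finset.mul_prod_erase S _ hi]
  have h1 : ∏ j ∈ S.erase i, (Real.tanh (φ * x j) * Real.tanh (φ * x j)) ≤ 1 := by
    apply Finset.prod_le_one
    · intro j _; exact mul_self_nonneg _
    · intro j _
      have := tanh_sq_le_one (φ * x j)
      nlinarith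
  have h0 : 0 ≤ ∏ j ∈ S.erase i, (Real.tanh (φ * x j) * Real.tanh (φ * x j)) :=
    Finset.prod_nonneg fun j _ => mul_self_nonneg _
  have h2 : Real.tanh (φ * x i) * Real.tanh (φ * x i) ≤ φ ^ 2 * x i ^ 2 := by
    have := tanh_sq_le (φ * x i)
    nlinarith
  calc Real.tanh (φ * x i) * Real.tanh (φ * x i) * ∏ j ∈ S.erase i, (Real.tanh (φ * x j) *
        Real.tanh (φ * x j)) ≤ Real.tanh (φ * x i) * Real.tanh (φ * x i) * 1 :=
        mul_le_mul_of_nonneg_left h1 (mul_self_nonneg _)
    _ ≤ _ := by rw [mul_one]; exact h2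

theorem intOn {K : Set (EuclideanSpace ℝ (Fin n))} {R : ℝ} (hK : CB K R)
    {F : EuclideanSpace ℝ (Fin n) → ℝ} (hF : Continuous F) : IntegrableOn F K :=
  (hK.bm_of_cont hF).integrableOn hK

theorem gt_continuous (φ : ℝ) : Continuous (gt (n := n) φ) := by
  have : gt (n := n) φ = fun x => ∑ S : Finset (Fin n), tw φ S x := by
    ext x; exact gt_sum φ x
  rw [this]
  exact continuous_finsetSum _ fun S _ => tw_continuous φ S

theorem int_gt {K : Set (EuclideanSpace ℝ (Fin n))} {R : ℝ} (hK : CB K R) (hinv : RInv K)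
    (φ : ℝ) : ∫ x in K, gt φ x = volume.real K := by
  simp only [gt_sum]
  rw [integral_finsetSum _ fun S _ => intOn hK (tw_continuous φ S)]
  rw [Finset.sum_eq_single ∅]
  · simp [tw_empty]
  · intro S _ hS
    exact tw_int hinv φ hS
  · intro h
    exact absurd (Finset.mem_univ _) h

/-- Bessel's inequality for the Walsh system. -/
theorem bessel {K : Set (EuclideanSpace ℝ (Fin n))} {R : ℝ} (hK : CB K R) (hinv : RInv K)
    {φ s θ : ℝ} (hm : ∀ i, ∫ x in K, (x i) ^ 2 ≤ s ^ 2 * volume.real K)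
    (hθ : φ ^ 2 * s ^ 2 ≤ θ) {g : EuclideanSpace ℝ (Fin n) → ℝ} (hg : Continuous g) :
    ∑ S ∈ Finset.univ.erase (∅ : Finset (Fin n)), (∫ x in K, g x * tw φ S x) ^ 2 ≤
      θ * (volume.real K * (∫ x in K, g x ^ 2) - (∫ x in K, g x) ^ 2) := by
  have hθ0 : 0 ≤ θ := le_trans (by positivity) hθ
  have hV0 : 0 < volume.real K := by
    rw [Measure.real]
    exact ENNReal.toReal_pos hK.vol0 hK.lt_top.ne
  set V := volume.real K with hV
  set I := ∫ x in K, g x with hI
  set c : Finset (Fin n) → ℝ := fun S => ∫ x in K, g x * tw φ S x with hc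
  set A := ∑ S ∈ Finset.univ.erase (∅ : Finset (Fin n)), c S ^ 2 with hA
  set h : EuclideanSpace ℝ (Fin n) → ℝ :=
    fun x => ∑ S ∈ Finset.univ.erase (∅ : Finset (Fin n)), c S * tw φ S x with hh
  have hhc : Continuous h := continuous_finsetSum _ fun S _ => (tw_continuous φ S).const_mul _
  set Q := ∫ x in K, g x ^ 2 with hQ
  have hone : ∫ x in K, (1:ℝ) = V := by simp [hV]
  have hhI : ∫ x in K, h x = 0 := by
    rw [hh, integral_finsetSum _ fun S _ => (intOn hK ((tw_continuous φ S).const_mul _))]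
    apply Finset.sum_eq_zero
    intro S hS
    rw [integral_const_mul, tw_int hinv φ (Finset.mem_erase.1 hS).1, mul_zero]
  have hgh : ∫ x in K, g x * h x = A := by
    have : ∀ x, g x * h x = ∑ S ∈ Finset.univ.erase (∅ : Finset (Fin n)),
        c S * (g x * tw φ S x) := by
      intro x
      rw [hh, Finset.mul_sum]
      refine Finset.sum_congr rfl fun S _ => by ring
    simp only [this]
    have hi : ∀ S : Finset (Fin n), IntegrableOn (fun x => c S * (g x * tw φ S x)) K :=
      fun S => intOn hK ((hg.mul (tw_continuous φ S)).const_mul _)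
    rw [integral_finsetSum _ fun S _ => hi S]
    refine Finset.sum_congr rfl fun S _ => ?_
    rw [integral_const_mul, sq]
  have hhh : ∫ x in K, h x ^ 2 ≤ θ * V * A := by
    have e : ∀ x, h x ^ 2 = ∑ S ∈ Finset.univ.erase (∅ : Finset (Fin n)),
        ∑ S' ∈ Finset.univ.erase (∅ : Finset (Fin n)), c S * c S' * (tw φ S x * tw φ S' x) := by
      intro x
      rw [hh, sq, Finset.sum_mul_sum]
      refine Finset.sum_congr rfl fun S _ => Finset.sum_congr rfl fun S' _ => by ring
    simp only [e]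
    have hi : ∀ S S' : Finset (Fin n),
        Continuous (fun x => c S * c S' * (tw φ S x * tw φ S' x)) :=
      fun S S' => ((tw_continuous φ S).mul (tw_continuous φ S')).const_mul _
    have hi2 : ∀ S : Finset (Fin n), Continuous (fun x => ∑ S' ∈ Finset.univ.erase
        (∅ : Finset (Fin n)), c S * c S' * (tw φ S x * tw φ S' x)) :=
      fun S => continuous_finsetSum _ fun S' _ => hi S S'
    rw [integral_finsetSum _ fun S _ => intOn hK (hi2 S)]
    rw [hA, Finset.mul_sum]
    refine Finset.sum_le_sum fun S hS => ?_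
    rw [integral_finsetSum _ fun S' _ => intOn hK (hi S S')]
    rw [Finset.sum_eq_single S]
    · rw [integral_const_mul]
      have hne := (Finset.mem_erase.1 hS).1
      obtain ⟨i, hi⟩ := Finset.nonempty_iff_ne_empty.2 hne
      have h1 : ∫ x in K, tw φ S x * tw φ S x ≤ ∫ x in K, φ ^ 2 * x i ^ 2 := by
        apply setIntegral_mono_on (intOn hK ((tw_continuous φ S).mul (tw_continuous φ S)))
          (intOn hK (by fun_prop)) hK.meas
        intro x _
        exact tw_sq_le φ hi x
      rw [integral_const_mul] at h1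
      have h2 : ∫ x in K, tw φ S x * tw φ S x ≤ θ * V := by
        refine h1.trans ?_
        calc φ ^ 2 * ∫ x in K, x i ^ 2 ≤ φ ^ 2 * (s ^ 2 * V) :=
              mul_le_mul_of_nonneg_left (hm i) (sq_nonneg _)
          _ = φ ^ 2 * s ^ 2 * V := by ring
          _ ≤ θ * V := mul_le_mul_of_nonneg_right hθ hV0.le
      calc c S * c S * ∫ x in K, tw φ S x * tw φ S x ≤ c S * c S * (θ * V) :=
            mul_le_mul_of_nonneg_left h2 (mul_self_nonneg _)
        _ = θ * V * c S ^ 2 := by ring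
    · intro S' _ hne
      rw [integral_const_mul, tw_orth hinv φ hne.symm, mul_zero]
    · intro hn
      exact absurd hS hn
  have key : ∀ t : ℝ, 0 ≤ (V * Q - I ^ 2) * (t * t) + (-(2 * A)) * t + θ * A := by
    intro t
    have h0 : 0 ≤ ∫ x in K, (t * (V * g x - I) - h x) ^ 2 := integral_nonneg fun x => sq_nonneg _
    have e : ∀ x, (t * (V * g x - I) - h x) ^ 2 =
        t ^ 2 * V ^ 2 * g x ^ 2 + (- (2 * t ^ 2 * V * I)) * g x + t ^ 2 * I ^ 2 * 1
          + (- (2 * t * V)) * (g x * h x) + 2 * t * I * h x + h x ^ 2 := by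
      intro x; ring
    simp only [e] at h0
    have i1 : IntegrableOn (fun x => t ^ 2 * V ^ 2 * g x ^ 2) K := intOn hK (by fun_prop)
    have i2 : IntegrableOn (fun x => (- (2 * t ^ 2 * V * I)) * g x) K := intOn hK (by fun_prop)
    have i3 : IntegrableOn (fun x : EuclideanSpace ℝ (Fin n) => t ^ 2 * I ^ 2 * (1:ℝ)) K :=
      intOn hK (by fun_prop)
    have i4 : IntegrableOn (fun x => (- (2 * t * V)) * (g x * h x)) K := intOn hK (by fun_prop)
    have i5 : IntegrableOn (fun x => 2 * t * I * h x) K := intOn hK (by fun_prop)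
    have i6 : IntegrableOn (fun x => h x ^ 2) K := intOn hK (by fun_prop)
    have j1 := i1.add i2
    have j2 := j1.add i3
    have j3 := j2.add i4
    have j4 := j3.add i5
    have k0 := integral_add j4 i6
    have k1 := integral_add j3 i5
    have k2 := integral_add j2 i4
    have k3 := integral_add j1 i3
    have k4 := integral_add i1 i2
    simp only [Pi.add_apply] at k0 k1 k2 k3
    rw [k0, k1, k2, k3, k4] at h0
    simp only [integral_const_mul] at h0
    rw [hgh, hhI, hone] at h0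
    rw [← hI, ← hQ] at h0
    have h1 : 0 ≤ V * ((V * Q - I ^ 2) * (t * t) + (-(2 * A)) * t + θ * A) := by nlinarith
    exact nonneg_of_mul_nonneg_right h1 hV0
  have hd := discrim_le_zero key
  rw [discrim] at hd
  have hA0 : 0 ≤ A := Finset.sum_nonneg fun S _ => sq_nonneg _
  have hVar : 0 ≤ V * Q - I ^ 2 := by
    have h1 := key 1
    have h2 := key (-1)
    by_contra hneg
    push Not at hneg
    have h3 := key ((θ * A + 1) / (-(V * Q - I ^ 2)) + 1)
    have h4 := key (-((θ * A + 1) / (-(V * Q - I ^ 2)) + 1))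
    set r := (θ * A + 1) / (-(V * Q - I ^ 2)) with hr
    have hr0 : 0 ≤ r := div_nonneg (by positivity) (by linarith)
    have hr1 : r * (-(V * Q - I ^ 2)) = θ * A + 1 := div_mul_cancel₀ _ (by linarith)
    nlinarith [mul_nonneg hr0 hr0, mul_nonneg hθ0 hA0]
  rcases hA0.eq_or_lt with hz | hpos
  · rw [← hz]; positivity
  · have : A * A ≤ A * (θ * (V * Q - I ^ 2)) := by nlinarith
    exact le_of_mul_le_mul_left this hpos

theorem coin_flip {K : Set (EuclideanSpace ℝ (Fin n))} {R : ℝ} (hK : CB K R) (hinv : RInv K)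
    {φ s θ C Λ : ℝ} (hm : ∀ i, ∫ x in K, (x i) ^ 2 ≤ s ^ 2 * volume.real K)
    (hθ : φ ^ 2 * s ^ 2 ≤ θ) (hθ1 : θ < 1) (hC : 0 ≤ C) (hT : TiltPC K φ C)
    (hΛ : C / (1 - θ) ≤ Λ ^ 2) : PC K Λ := by
  intro g hg
  have hV0 : 0 < volume.real K := by
    rw [Measure.real]
    exact ENNReal.toReal_pos hK.vol0 hK.lt_top.ne
  have hgc : Continuous g := hg.continuous
  have hdg : Continuous fun x => ‖fderiv ℝ g x‖ ^ 2 :=
    ((hg.continuous_fderiv (by norm_num)).norm).pow 2
  have hgt := gt_continuous (n := n) φ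
  have hstep : ∀ T : Finset (Fin n),
      (∫ x in K, g x ^ 2 * gt φ (sgT T x)) * volume.real K -
        (∫ x in K, g x * gt φ (sgT T x)) ^ 2 ≤
      C * ((∫ x in K, ‖fderiv ℝ g x‖ ^ 2 * gt φ (sgT T x)) * volume.real K) := by
    intro T
    have h1 := hT (fun x => g (sgT T x)) (hg.comp (sgT T).contDiff)
    rw [int_gt hK hinv φ] at h1
    have e1 : ∫ x in K, g (sgT T x) ^ 2 * gt φ x = ∫ x in K, g x ^ 2 * gt φ (sgT T x) := by
      rw [← integral_sgT hinv T (fun x => g x ^ 2 * gt φ (sgT T x))]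
      simp only [sgT_sgT]
    have e2 : ∫ x in K, g (sgT T x) * gt φ x = ∫ x in K, g x * gt φ (sgT T x) := by
      rw [← integral_sgT hinv T (fun x => g x * gt φ (sgT T x))]
      simp only [sgT_sgT]
    have e3 : ∫ x in K, ‖fderiv ℝ (fun x => g (sgT T x)) x‖ ^ 2 * gt φ x =
        ∫ x in K, ‖fderiv ℝ g x‖ ^ 2 * gt φ (sgT T x) := by
      rw [← integral_sgT hinv T (fun x => ‖fderiv ℝ g x‖ ^ 2 * gt φ (sgT T x))]
      simp only [sgT_sgT]
      congr 1
      ext x
      congr 2
      have : (fun x => g (sgT T x)) = g ∘ (sgT T) := rfl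
      rw [this]
      have h5 : fderiv ℝ (g ∘ (sgT T)) x = (fderiv ℝ g (sgT T x)).comp
          ((sgT T : EuclideanSpace ℝ (Fin n) ≃L[ℝ] EuclideanSpace ℝ (Fin n)) :
            EuclideanSpace ℝ (Fin n) →L[ℝ] EuclideanSpace ℝ (Fin n)) :=
        ContinuousLinearEquiv.comp_right_fderiv (sgT T :
          EuclideanSpace ℝ (Fin n) ≃L[ℝ] EuclideanSpace ℝ (Fin n))
      rw [h5]
      exact ContinuousLinearMap.opNorm_comp_linearIsometryEquiv _ (sgT T)
    rw [e1, e2, e3] at h1
    exact h1
  have hsum := Finset.sum_le_sum fun T (_ : T ∈ (Finset.univ : Finset (Finset (Fin n)))) => hstep T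
  rw [Finset.sum_sub_distrib, ← Finset.sum_mul, ← Finset.mul_sum, ← Finset.sum_mul] at hsum
  have s1 : ∀ F : EuclideanSpace ℝ (Fin n) → ℝ, Continuous F →
      ∑ T : Finset (Fin n), ∫ x in K, F x * gt φ (sgT T x) = 2 ^ n * ∫ x in K, F x := by
    intro F hF
    have hi : ∀ T : Finset (Fin n), IntegrableOn (fun x => F x * gt φ (sgT T x)) K :=
      fun T => intOn hK (hF.mul (hgt.comp (sgT T).continuous))
    rw [← integral_finsetSum _ fun T _ => hi T]
    simp only [← Finset.mul_sum, sum_gt_sgT]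
    rw [integral_mul_const, mul_comm]
  have s3 := s1 (fun x => g x ^ 2) (hgc.pow 2)
  have s4 := s1 _ hdg
  rw [s3, s4] at hsum
  have s2 : ∑ T : Finset (Fin n), (∫ x in K, g x * gt φ (sgT T x)) ^ 2 =
      2 ^ n * ∑ S : Finset (Fin n), (∫ x in K, g x * tw φ S x) ^ 2 := by
    have e : ∀ T : Finset (Fin n), ∫ x in K, g x * gt φ (sgT T x) =
        ∑ S : Finset (Fin n), (∏ i ∈ S, sT T i) * ∫ x in K, g x * tw φ S x := by
      intro T
      simp only [gt_sgT_sum, Finset.mul_sum]
      have : ∀ x, ∀ S : Finset (Fin n), g x * ((∏ i ∈ S, sT T i) * tw φ S x) =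
          (∏ i ∈ S, sT T i) * (g x * tw φ S x) := by
        intro x S; ring
      simp only [this]
      have hi : ∀ S : Finset (Fin n),
          IntegrableOn (fun x => (∏ i ∈ S, sT T i) * (g x * tw φ S x)) K :=
        fun S => intOn hK ((hgc.mul (tw_continuous φ S)).const_mul _)
      rw [integral_finsetSum _ fun S _ => hi S]
      simp only [integral_const_mul]
    rw [Finset.sum_congr rfl fun T _ => by rw [e T]]
    exact walsh_parseval fun S => ∫ x in K, g x * tw φ S x
  rw [s2] at hsum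
  have hB := bessel hK hinv hm hθ hgc
  have hsplit : ∑ S : Finset (Fin n), (∫ x in K, g x * tw φ S x) ^ 2 =
      (∫ x in K, g x) ^ 2 +
        ∑ S ∈ Finset.univ.erase (∅ : Finset (Fin n)), (∫ x in K, g x * tw φ S x) ^ 2 := by
    rw [← Finset.add_sum_erase _ _ (Finset.mem_univ (∅ : Finset (Fin n)))]
    simp [tw_empty]
  rw [hsplit] at hsum
  set V := volume.real K
  set I := ∫ x in K, g x
  set A := ∑ S ∈ Finset.univ.erase (∅ : Finset (Fin n)), (∫ x in K, g x * tw φ S x) ^ 2
  set Q := ∫ x in K, g x ^ 2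
  set D := ∫ x in K, ‖fderiv ℝ g x‖ ^ 2
  have hD0 : 0 ≤ D := integral_nonneg fun x => sq_nonneg _
  have h2n : (0:ℝ) < 2 ^ n := by positivity
  have h3 : Q * V - (I ^ 2 + A) ≤ C * (D * V) := by
    have : 2 ^ n * (Q * V - (I ^ 2 + A)) ≤ 2 ^ n * (C * (D * V)) := by nlinarith
    exact le_of_mul_le_mul_left this h2n
  have h4 : (1 - θ) * (V * Q - I ^ 2) ≤ C * (V * D) := by nlinarith
  have h5 : V * Q - I ^ 2 ≤ C / (1 - θ) * (V * D) := by
    rw [div_mul_eq_mul_div, le_div_iff₀ (by linarith)]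
    linarith
  exact h5.trans (mul_le_mul_of_nonneg_right hΛ (by positivity))

end Pool.Agent.H84.Unc
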